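import Pool.Agent.L0h71.CK.Ord

set_option autoImplicit false

/-! # Decompositions of power series of high order -/

namespace Pool.Agent.L0h71.CK

open Pool.Agent.L0h21.CK

variable {V : Type}

theorem exists_pick [Fintype V] [Nonempty V] (M : ℕ) : ∃ pick : (V →₀ ℕ) → V,
    ∀ d : V →₀ ℕ, M * Fintype.card V + 1 ≤ d.degree → M ≤ d (pick d) := by
  have key : ∀ d : V →₀ ℕ, ∃ v : V, M * Fintype.card V + 1 ≤ d.degree → M ≤ d v := by
    intro d
    by_cases hd : M * Fintype.card V + 1 ≤ d.degree
    · by_contra hcon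
      push Not at hcon
      have h1 : d.degree = ∑ v, d v := Finsupp.degree_eq_sum d
      have h2 : ∑ v, d v ≤ ∑ _v : V, M := Finset.sum_le_sum fun v _ => (hcon v).2.le
      rw [Finset.sum_const, Finset.card_univ, smul_eq_mul, mul_comm] at h2
      omega
    · exact ⟨Classical.arbitrary V, fun h => absurd h hd⟩
  choose pick hpick using key
  exact ⟨pick, hpick⟩

open Classical in
/-- The part of `h` whose monomials are assigned to the variable `v`, divided by `X_v ^ M`. -/
noncomputable def part (pick : (V →₀ ℕ) → V) (M : ℕ) (h : MvPowerSeries V ℂ) (v : V) :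
    MvPowerSeries V ℂ :=
  fun e => if pick (e + Finsupp.single v M) = v then
    MvPowerSeries.coeff (e + Finsupp.single v M) h else 0

open Classical in
theorem coeff_part (pick : (V →₀ ℕ) → V) (M : ℕ) (h : MvPowerSeries V ℂ) (v : V) (e : V →₀ ℕ) :
    MvPowerSeries.coeff e (part pick M h v) = if pick (e + Finsupp.single v M) = v then
    MvPowerSeries.coeff (e + Finsupp.single v M) h else 0 := rfl

theorem dec_X [Fintype V] (M l : ℕ) (h : MvPowerSeries V ℂ)
    (hh : OrdS (M * Fintype.card V + 1 + l) h) :
    ∃ f : V → MvPowerSeries V ℂ, (∀ v, OrdS l (f v)) ∧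
      h = ∑ v, (MvPowerSeries.X v : MvPowerSeries V ℂ) ^ M * f v := by
  classical
  rcases isEmpty_or_nonempty V with hV | hV
  · refine ⟨fun _ => 0, fun v => (hV.false v).elim, ?_⟩
    rw [Finset.univ_eq_empty, Finset.sum_empty]
    exact ordS_empty (ordS_mono (by omega) hh)
  · obtain ⟨pick, hpick⟩ := exists_pick (V := V) M
    have hcard : 1 ≤ Fintype.card V := Fintype.card_pos
    refine ⟨part pick M h, ?_, ?_⟩
    · intro v e he
      rw [coeff_part]
      split_ifs with h1
      · apply hh
        rw [map_add, Finsupp.degree_single]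
        have : M * 1 ≤ M * Fintype.card V := Nat.mul_le_mul_left _ hcard
        omega
      · rfl
    · ext d
      rw [map_sum]
      have hterm : ∀ v : V, MvPowerSeries.coeff d ((MvPowerSeries.X v : MvPowerSeries V ℂ) ^ M *
          part pick M h v) =
          if pick d = v then (if Finsupp.single v M ≤ d then MvPowerSeries.coeff d h else 0)
          else 0 := by
        intro v
        rw [MvPowerSeries.X_pow_eq, MvPowerSeries.coeff_monomial_mul]
        by_cases h1 : Finsupp.single v M ≤ d
        · rw [if_pos h1, if_pos h1, one_mul, coeff_part, tsub_add_cancel_of_le h1]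
        · rw [if_neg h1, if_neg h1, ite_self]
      rw [Finset.sum_congr rfl fun v _ => hterm v, Finset.sum_ite_eq]
      simp only [Finset.mem_univ, if_true]
      by_cases hd : M * Fintype.card V + 1 ≤ d.degree
      · rw [if_pos]
        rw [Finsupp.single_le_iff]
        exact hpick d hd
      · have : MvPowerSeries.coeff d h = 0 := hh d (by omega)
        rw [this, ite_self]

theorem dec_span [Fintype V] (F : V → MvPowerSeries V ℂ) (M l : ℕ)
    (hF : ∀ v, (MvPowerSeries.X v : MvPowerSeries V ℂ) ^ M ∈ Ideal.span (Set.range F))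
    (h : MvPowerSeries V ℂ) (hh : OrdS (M * Fintype.card V + 1 + l) h) :
    ∃ a : V → MvPowerSeries V ℂ, (∀ i, OrdS l (a i)) ∧ h = ∑ i, F i * a i := by
  obtain ⟨f, hf, hsum⟩ := dec_X M l h hh
  have hF' : ∀ v, ∃ α : V → MvPowerSeries V ℂ,
      ∑ i, α i * F i = (MvPowerSeries.X v : MvPowerSeries V ℂ) ^ M := by
    intro v
    exact Ideal.mem_span_range_iff_exists_fun.1 (hF v)
  choose α hα using hF'
  refine ⟨fun i => ∑ v, α v i * f v, ?_, ?_⟩
  · intro i
    exact ordS_sum _ _ fun v _ => ordS_mul_left _ (hf v)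
  · rw [hsum]
    simp_rw [Finset.mul_sum]
    rw [Finset.sum_comm]
    refine Finset.sum_congr rfl fun v _ => ?_
    rw [← hα v, Finset.sum_mul]
    refine Finset.sum_congr rfl fun i _ => ?_
    ring

end Pool.Agent.L0h71.CK
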