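import Pool.Agent.L0h21.CK.Stm
import Pool.Agent.L0h71.CK.Dec

set_option autoImplicit false

/-! # Module f1: from polynomials to power series -/

namespace Pool.Agent.L0h71.CK

open Pool.Agent.L0h21.CK
open MvPolynomial (pderiv C X monomial coeff)

variable {V : Type}

theorem ordP_mono {k l : ℕ} (hkl : l ≤ k) {q : MvPolynomial V ℂ} (H : OrdP k q) : OrdP l q :=
  fun d hd => H d (lt_of_lt_of_le hd hkl)

theorem ordP_mul_left {k : ℕ} (f : MvPolynomial V ℂ) {q : MvPolynomial V ℂ} (H : OrdP k q) :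
    OrdP k (f * q) := by
  rw [ordP_iff] at H ⊢
  rw [MvPolynomial.coe_mul]
  exact ordS_mul_left _ H

theorem ordP_add {k : ℕ} {f q : MvPolynomial V ℂ} (hf : OrdP k f) (H : OrdP k q) :
    OrdP k (f + q) := by
  intro d hd
  rw [MvPolynomial.coeff_add, hf d hd, H d hd, add_zero]

theorem ordP_pderiv {k : ℕ} {q : MvPolynomial V ℂ} (H : OrdP (k + 1) q) (i : V) :
    OrdP k (pderiv i q) := by
  rw [ordP_iff] at H ⊢
  rw [← MvPowerSeries.pderiv_coe]
  exact ordS_pderiv H i

/-- The decomposition. -/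
def DecP [Fintype V] (G : MvPolynomial V ℂ) (l : ℕ) (q : MvPolynomial V ℂ) : Prop :=
  ∃ (a : MvPolynomial V ℂ) (b : V → MvPolynomial V ℂ), OrdP l a ∧ (∀ i, OrdP l (b i)) ∧
    q = G * a + ∑ i, pderiv i G * b i

theorem decP_add [Fintype V] {G : MvPolynomial V ℂ} {l : ℕ} {q q' : MvPolynomial V ℂ}
    (h : DecP G l q) (h' : DecP G l q') : DecP G l (q + q') := by
  obtain ⟨a, b, h1, h2, h3⟩ := h
  obtain ⟨a', b', h1', h2', h3'⟩ := h'
  refine ⟨a + a', fun i => b i + b' i, ordP_add h1 h1', fun i => ordP_add (h2 i) (h2' i), ?_⟩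
  rw [h3, h3', mul_add]
  simp_rw [mul_add]
  rw [Finset.sum_add_distrib]
  ring

theorem decP_monomial [Fintype V] (G : MvPolynomial V ℂ) (M l : ℕ)
    (hM : ∀ v, (X v : MvPolynomial V ℂ) ^ M ∈
      Ideal.span (insert G (Set.range fun i => pderiv i G)))
    (d : V →₀ ℕ) (r : ℂ) (hd : M * Fintype.card V + 1 + l ≤ d.degree) :
    DecP G l (monomial d r) := by
  classical
  rcases isEmpty_or_nonempty V with hV | hV
  · exfalso
    have h0 : d = 0 := Subsingleton.elim _ _
    rw [h0, map_zero] at hd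
    omega
  · obtain ⟨pick, hpick⟩ := exists_pick (V := V) M
    have hcard : 1 ≤ Fintype.card V := Fintype.card_pos
    have hM1 : M * 1 ≤ M * Fintype.card V := Nat.mul_le_mul_left _ hcard
    set v := pick d with hv
    have hle : M ≤ d v := hpick d (by omega)
    have hle' : Finsupp.single v M ≤ d := Finsupp.single_le_iff.2 hle
    obtain ⟨α, z, hz, hsum⟩ := Ideal.mem_span_insert.1 (hM v)
    obtain ⟨β, hβ⟩ := Ideal.mem_span_range_iff_exists_fun.1 hz
    have hdeg : d.degree = (d - Finsupp.single v M).degree + M := by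
      conv_lhs => rw [← tsub_add_cancel_of_le hle']
      rw [map_add, Finsupp.degree_single]
    have hord : OrdP l (monomial (d - Finsupp.single v M) r : MvPolynomial V ℂ) := by
      intro d' hd'
      rw [MvPolynomial.coeff_monomial, if_neg]
      intro h
      rw [h] at hdeg
      omega
    have hmon : (monomial d r : MvPolynomial V ℂ) =
        X v ^ M * monomial (d - Finsupp.single v M) r := by
      rw [MvPolynomial.X_pow_eq_monomial, MvPolynomial.monomial_mul, one_mul,
        add_tsub_cancel_of_le hle']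
    rw [hmon]
    generalize (monomial (d - Finsupp.single v M) r : MvPolynomial V ℂ) = q at hord
    have h1 : OrdP l (α * q) := ordP_mul_left α hord
    have h2 : ∀ i, OrdP l (β i * q) := fun i => ordP_mul_left (β i) hord
    have h3 : X v ^ M * q = G * (α * q) + ∑ i, pderiv i G * (β i * q) := by
      have h4 : ∑ i, pderiv i G * (β i * q) = z * q := by
        rw [← hβ, Finset.sum_mul]
        exact Finset.sum_congr rfl fun i _ => by ring
      rw [hsum, h4]
      ring
    exact ⟨α * q, fun i => β i * q, h1, h2, h3⟩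

theorem decP [Fintype V] (G : MvPolynomial V ℂ) (M l : ℕ)
    (hM : ∀ v, (X v : MvPolynomial V ℂ) ^ M ∈
      Ideal.span (insert G (Set.range fun i => pderiv i G)))
    (q : MvPolynomial V ℂ) (hq : OrdP (M * Fintype.card V + 1 + l) q) : DecP G l q := by
  rw [← MvPolynomial.support_sum_monomial_coeff q]
  refine Finset.sum_induction _ (DecP G l) (fun a b => decP_add) ?_ ?_
  · refine ⟨0, fun _ => 0, fun d _ => by simp, fun _ d _ => by simp, by simp⟩
  · intro d hd
    refine decP_monomial G M l hM d _ ?_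
    by_contra hcon
    rw [MvPolynomial.mem_support_iff] at hd
    exact hd (hq d (by omega))

open Pool.Agent.L0h21.RW (IsPer' Per')

theorem per_loc [Fintype V] (G : MvPolynomial V ℂ) (e : ℂ) (M : ℕ)
    (hM : ∀ v, (X v : MvPolynomial V ℂ) ^ M ∈
      Ideal.span (insert G (Set.range fun i => pderiv i G)))
    (S : Set (ℕ → MvPolynomial V ℂ →ₗ[ℂ] ℂ)) (hS : IsPer' G e S) :
    ∀ m : ℕ, ∀ c ∈ S, ∀ q, OrdP ((M * Fintype.card V + 2) * (m + 1)) q → c m q = 0 := by
  intro m
  induction m with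
  | zero =>
    intro c hc q hq
    obtain ⟨a, b, h1, h2, h3⟩ := decP G M 1 hM q (ordP_mono (by omega) hq)
    rw [h3, map_add, hS.e1 c hc, zero_add, map_sum]
    exact Finset.sum_eq_zero fun i _ => hS.d1 c hc i _
  | succ m ih =>
    intro c hc q hq
    obtain ⟨a, b, h1, h2, h3⟩ := decP G M ((M * Fintype.card V + 2) * (m + 1) + 1) hM q
      (ordP_mono (by
        have : (M * Fintype.card V + 2) * (m + 1 + 1) =
          (M * Fintype.card V + 2) * (m + 1) + (M * Fintype.card V + 2) := by ring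
        omega) hq)
    rw [h3, map_add, hS.e2 c hc, ih c hc a (ordP_mono (by omega) h1), mul_zero, zero_add, map_sum]
    refine Finset.sum_eq_zero fun i _ => ?_
    obtain ⟨c', hc', hd⟩ := hS.d2 c hc i
    have h4 := hd m (b i)
    rw [ih c hc _ (ordP_pderiv (h2 i) i), ih c' hc' _ (ordP_mono (by omega) (h2 i)), zero_sub,
      neg_eq_zero] at h4
    exact h4

/-- The extension of a family to power series, multiplied by `a`. -/
noncomputable def ext [Fintype V] (A : ℕ) (c : ℕ → MvPolynomial V ℂ →ₗ[ℂ] ℂ)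
    (a : MvPowerSeries V ℂ) (m : ℕ) : MvPowerSeries V ℂ →ₗ[ℂ] ℂ :=
  c m ∘ₗ MvPowerSeries.truncTotal (A * (m + 1)) ∘ₗ LinearMap.mulLeft ℂ a

theorem ext_apply [Fintype V] (A : ℕ) (c : ℕ → MvPolynomial V ℂ →ₗ[ℂ] ℂ)
    (a : MvPowerSeries V ℂ) (m : ℕ) (h : MvPowerSeries V ℂ) :
    ext A c a m h = c m (MvPowerSeries.truncTotal (A * (m + 1)) (a * h)) := rfl

theorem c_trunc [Fintype V] {A : ℕ} {c : ℕ → MvPolynomial V ℂ →ₗ[ℂ] ℂ}
    (hc : ∀ (m : ℕ) (q : MvPolynomial V ℂ), OrdP (A * (m + 1)) q → c m q = 0) (m : ℕ)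
    (u : MvPowerSeries V ℂ) (q : MvPolynomial V ℂ)
    (hu : OrdS (A * (m + 1)) (u - (q : MvPowerSeries V ℂ))) :
    c m (MvPowerSeries.truncTotal (A * (m + 1)) u) = c m q := by
  rw [← sub_eq_zero, ← map_sub]
  apply hc
  intro d hd
  have h1 := hu d hd
  rw [map_sub, MvPolynomial.coeff_coe] at h1
  rw [MvPolynomial.coeff_sub, MvPowerSeries.coeff_truncTotal _ hd]
  exact h1

theorem ord_trunc [Fintype V] (N : ℕ) (u : MvPowerSeries V ℂ) :
    OrdS N (u - ((MvPowerSeries.truncTotal N u : MvPolynomial V ℂ) : MvPowerSeries V ℂ)) := by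
  intro d hd
  rw [map_sub, MvPolynomial.coeff_coe, MvPowerSeries.coeff_truncTotal _ hd, sub_self]

theorem ext_eq [Fintype V] {A : ℕ} {c : ℕ → MvPolynomial V ℂ →ₗ[ℂ] ℂ}
    (hc : ∀ (m : ℕ) (q : MvPolynomial V ℂ), OrdP (A * (m + 1)) q → c m q = 0)
    (a h : MvPowerSeries V ℂ) (m N : ℕ) (hN : A * (m + 1) ≤ N) :
    ext A c a m h = c m (MvPowerSeries.truncTotal N (a * h)) := by
  rw [ext_apply]
  exact c_trunc hc m _ _ (ordS_mono hN (ord_trunc N _))

theorem ext_mul [Fintype V] {A : ℕ} {c : ℕ → MvPolynomial V ℂ →ₗ[ℂ] ℂ}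
    (hc : ∀ (m : ℕ) (q : MvPolynomial V ℂ), OrdP (A * (m + 1)) q → c m q = 0)
    (a h : MvPowerSeries V ℂ) (P : MvPolynomial V ℂ) (m N : ℕ) (hN : A * (m + 1) ≤ N) :
    ext A c a m (P * h) = c m (P * MvPowerSeries.truncTotal N (a * h)) := by
  rw [ext_apply]
  apply c_trunc hc m
  rw [MvPolynomial.coe_mul]
  have : a * (P * h) - P * (MvPowerSeries.truncTotal N (a * h) : MvPolynomial V ℂ) =
      (P : MvPowerSeries V ℂ) * (a * h -
        (MvPowerSeries.truncTotal N (a * h) : MvPolynomial V ℂ)) := by ring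
  rw [this]
  exact ordS_mul_left _ (ordS_mono hN (ord_trunc N _))

theorem ext_pderiv [Fintype V] {A : ℕ} {c : ℕ → MvPolynomial V ℂ →ₗ[ℂ] ℂ}
    (hc : ∀ (m : ℕ) (q : MvPolynomial V ℂ), OrdP (A * (m + 1)) q → c m q = 0)
    (a h : MvPowerSeries V ℂ) (i : V) (m N : ℕ) (hN : A * (m + 1) + 1 ≤ N) :
    ext A c a m (MvPowerSeries.pderiv ℂ i h) =
      c m (pderiv i (MvPowerSeries.truncTotal N (a * h))) +
        ext A c (-(MvPowerSeries.pderiv ℂ i a)) m h := by
  rw [ext_apply, ext_apply]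
  have h1 : a * MvPowerSeries.pderiv ℂ i h =
      MvPowerSeries.pderiv ℂ i (a * h) + -(MvPowerSeries.pderiv ℂ i a) * h := by
    rw [pderiv_mulS]
    ring
  rw [h1, map_add, map_add]
  congr 1
  apply c_trunc hc m
  rw [← MvPowerSeries.pderiv_coe, ← map_sub]
  exact ordS_pderiv (ordS_mono hN (ord_trunc N _)) i

/-- The generators. -/
def gens [Fintype V] (A : ℕ) (S : Set (ℕ → MvPolynomial V ℂ →ₗ[ℂ] ℂ)) :
    Set (ℕ → MvPowerSeries V ℂ →ₗ[ℂ] ℂ) :=
  {c' | ∃ c ∈ S, ∃ a, c' = ext A c a}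

theorem t_f1 : S_f1 := by
  intro V _ G e M hM hper
  obtain ⟨S, hS, c0, hc0, hne⟩ := hper
  have hloc0 := per_loc G e M hM S hS
  set A := M * Fintype.card V + 2 with hA
  have hloc : ∀ c ∈ S, ∀ (m : ℕ) (q : MvPolynomial V ℂ), OrdP (A * (m + 1)) q → c m q = 0 :=
    fun c hc m q hq => hloc0 m c hc q hq
  have hgen : ∀ c ∈ S, ∀ a, ext A c a ∈ AddSubmonoid.closure (gens A S) :=
    fun c hc a => AddSubmonoid.subset_closure ⟨c, hc, a, rfl⟩
  refine ⟨(AddSubmonoid.closure (gens A S) : Set _), ?_, ext A c0 1, hgen c0 hc0 1, ?_⟩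
  · refine ⟨?_, ?_, ?_, ?_, ?_, ?_, ?_⟩
    · intro c' hc'
      refine AddSubmonoid.closure_induction (motive := fun c' _ => ∀ h, c' 0 (G * h) = 0) ?_ ?_ ?_ hc'
      · rintro _ ⟨c, hc, a, rfl⟩ h
        rw [ext_mul (hloc c hc) a h G 0 _ le_rfl]
        exact hS.e1 c hc _
      · intro h
        rfl
      · intro x y _ _ hx hy h
        rw [Pi.add_apply, LinearMap.add_apply, hx, hy, add_zero]
    · intro c' hc'
      refine AddSubmonoid.closure_induction (motive := fun c' _ => ∀ (m : ℕ) h,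
        c' (m + 1) (G * h) = ((m : ℂ) - e) * c' m h) ?_ ?_ ?_ hc'
      · rintro _ ⟨c, hc, a, rfl⟩ m h
        rw [ext_mul (hloc c hc) a h G (m + 1) _ le_rfl, hS.e2 c hc,
          ext_eq (hloc c hc) a h m (A * (m + 1 + 1)) (Nat.mul_le_mul_left _ (by omega))]
      · intro m h
        show (0 : ℂ) = _ * 0
        rw [mul_zero]
      · intro x y _ _ hx hy m h
        rw [Pi.add_apply, Pi.add_apply, LinearMap.add_apply, LinearMap.add_apply, hx, hy]
        ring
    · intro c' hc' i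
      refine AddSubmonoid.closure_induction (motive := fun c' _ => ∀ h,
        c' 0 (MvPowerSeries.pderiv ℂ i G * h) = 0) ?_ ?_ ?_ hc'
      · rintro _ ⟨c, hc, a, rfl⟩ h
        rw [MvPowerSeries.pderiv_coe, ext_mul (hloc c hc) a h (pderiv i G) 0 _ le_rfl]
        exact hS.d1 c hc i _
      · intro h
        rfl
      · intro x y _ _ hx hy h
        rw [Pi.add_apply, LinearMap.add_apply, hx, hy, add_zero]
    · intro c' hc' i
      refine AddSubmonoid.closure_induction (motive := fun c' _ =>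
        ∃ c'' ∈ AddSubmonoid.closure (gens A S), ∀ (m : ℕ) h,
          c' m (MvPowerSeries.pderiv ℂ i h) -
            c' (m + 1) (MvPowerSeries.pderiv ℂ i (G : MvPowerSeries V ℂ) * h) = c'' m h)
        ?_ ?_ ?_ hc'
      · rintro _ ⟨c, hc, a, rfl⟩
        obtain ⟨c'', hc'', hd⟩ := hS.d2 c hc i
        refine ⟨ext A c'' a + ext A c (-(MvPowerSeries.pderiv ℂ i a)),
          AddSubmonoid.add_mem _ (hgen c'' hc'' a) (hgen c hc _), ?_⟩
        intro m h
        have hN : A * (m + 1) ≤ A * (m + 1 + 1) := Nat.mul_le_mul_left _ (by omega)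
        rw [MvPowerSeries.pderiv_coe,
          ext_mul (hloc c hc) a h (pderiv i G) (m + 1) (A * (m + 1 + 1) + 1) (by omega),
          ext_pderiv (hloc c hc) a h i m (A * (m + 1 + 1) + 1) (by omega),
          Pi.add_apply, LinearMap.add_apply,
          ext_eq (hloc c'' hc'') a h m (A * (m + 1 + 1) + 1) (by omega), ← hd]
        ring
      · refine ⟨0, AddSubmonoid.zero_mem _, ?_⟩
        intro m h
        show (0 : ℂ) - 0 = 0
        rw [sub_zero]
      · rintro x y _ _ ⟨x', hx', hx⟩ ⟨y', hy', hy⟩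
        refine ⟨x' + y', AddSubmonoid.add_mem _ hx' hy', ?_⟩
        intro m h
        rw [Pi.add_apply, Pi.add_apply, Pi.add_apply, LinearMap.add_apply, LinearMap.add_apply,
          LinearMap.add_apply, ← hx, ← hy]
        ring
    · intro c' hc' b
      refine AddSubmonoid.closure_induction (motive := fun c' _ =>
        ∃ c'' ∈ AddSubmonoid.closure (gens A S), ∀ (m : ℕ) h,
          c' m (b * h) = c'' m h) ?_ ?_ ?_ hc'
      · rintro _ ⟨c, hc, a, rfl⟩
        refine ⟨ext A c (a * b), hgen c hc _, ?_⟩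
        intro m h
        rw [ext_apply, ext_apply, mul_assoc]
      · exact ⟨0, AddSubmonoid.zero_mem _, fun m h => rfl⟩
      · rintro x y _ _ ⟨x', hx', hx⟩ ⟨y', hy', hy⟩
        refine ⟨x' + y', AddSubmonoid.add_mem _ hx' hy', ?_⟩
        intro m h
        rw [Pi.add_apply, Pi.add_apply, LinearMap.add_apply, LinearMap.add_apply, hx, hy]
    · intro c hc c' hc'
      exact AddSubmonoid.add_mem _ hc hc'
    · refine ⟨A, ?_⟩
      intro c' hc'
      refine AddSubmonoid.closure_induction (motive := fun c' _ => ∀ (m : ℕ) h,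
        OrdS (A * (m + 1)) h → c' m h = 0) ?_ ?_ ?_ hc'
      · rintro _ ⟨c, hc, a, rfl⟩ m h hh
        rw [ext_apply, c_trunc (hloc c hc) m _ 0, map_zero]
        rw [MvPolynomial.coe_zero, sub_zero]
        exact ordS_mul_left _ hh
      · intro m h _
        rfl
      · intro x y _ _ hx hy m h hh
        rw [Pi.add_apply, LinearMap.add_apply, hx m h hh, hy m h hh, add_zero]
  · rw [ext_apply, c_trunc (hloc c0 hc0) 0 _ 1]
    · exact hne
    · rw [MvPolynomial.coe_one, mul_one, sub_self]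
      exact ordS_zero_ser _

end Pool.Agent.L0h71.CK
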