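import Pool.Agent.L0h21.CK.Stm
import Pool.Agent.L0h71.CK.Dec

set_option autoImplicit false

/-! # Module f2a: the bound -/

namespace Pool.Agent.L0h71.CK

open Pool.Agent.L0h21.CK

theorem f2a_step {V : Type} [Fintype V] (g R : MvPowerSeries V ℂ) (e : ℂ)
    (S : Set (ℕ → MvPowerSeries V ℂ →ₗ[ℂ] ℂ)) (M k A : ℕ) (hS : IsFP g e S)
    (hM : ∀ v, (MvPowerSeries.X v : MvPowerSeries V ℂ) ^ M ∈
      Ideal.span (Set.range fun i => MvPowerSeries.pderiv ℂ i (g + R)))
    (hR : OrdS k R) (hk : M * Fintype.card V + 3 ≤ k)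
    (hA : ∀ c ∈ S, ∀ (m : ℕ) h, OrdS (A * (m + 1)) h → c m h = 0)
    (m : ℕ) (IH : ∀ m', m = m' + 1 → ∀ c ∈ S, ∀ h,
      OrdS ((M * Fintype.card V + 2) * (m' + 1)) h → c m' h = 0) :
    ∀ j t : ℕ, (M * Fintype.card V + 2) * (m + 1) ≤ t → A * (m + 1) ≤ t + j →
      ∀ c ∈ S, ∀ h, OrdS t h → c m h = 0 := by
  intro j
  induction j with
  | zero =>
    intro t _ h2 c hc h hh
    exact hA c hc m h (ordS_mono (by omega) hh)
  | succ j ihj =>
    intro t h1 h2 c hc h hh
    set B := M * Fintype.card V + 1 with hB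
    have h1' : (B + 1) * m + (B + 1) ≤ t := by
      have : (B + 1) * (m + 1) = (B + 1) * m + (B + 1) := by ring
      have h3 : (M * Fintype.card V + 2) * (m + 1) = (B + 1) * (m + 1) := by rw [hB]
      omega
    obtain ⟨l, hl⟩ : ∃ l, t = B + l := ⟨t - B, by omega⟩
    have hl1 : (B + 1) * m + 1 ≤ l := by omega
    rw [hl] at hh
    obtain ⟨a, ha, hsum⟩ := dec_span _ M l hM h hh
    have hsum' : h = ∑ i, MvPowerSeries.pderiv ℂ i g * a i +
        ∑ i, MvPowerSeries.pderiv ℂ i R * a i := by
      rw [hsum, ← Finset.sum_add_distrib]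
      refine Finset.sum_congr rfl fun i _ => ?_
      rw [map_add]
      ring
    have hord : OrdS (t + 1) (∑ i, MvPowerSeries.pderiv ℂ i R * a i) := by
      refine ordS_sum _ _ fun i _ => ?_
      have h3 : OrdS (B + 1) (MvPowerSeries.pderiv ℂ i R) :=
        ordS_pderiv (ordS_mono (by omega) hR) i
      exact ordS_mono (by omega) (ordS_mul h3 (ha i))
    have hz : c m (∑ i, MvPowerSeries.pderiv ℂ i R * a i) = 0 :=
      ihj (t + 1) (by omega) (by omega) c hc _ hord
    rw [hsum', map_add, hz, add_zero, map_sum]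
    refine Finset.sum_eq_zero fun i _ => ?_
    rcases m with - | m
    · exact hS.d1 c hc i (a i)
    · obtain ⟨c', hc', hd⟩ := hS.d2 c hc i
      have h4 := hd m (a i)
      have h5 : c m (MvPowerSeries.pderiv ℂ i (a i)) = 0 := by
        refine IH m rfl c hc _ (ordS_pderiv (ordS_mono ?_ (ha i)) i)
        have : (M * Fintype.card V + 2) = B + 1 := by rw [hB]
        rw [this]
        exact hl1
      have h6 : c' m (a i) = 0 := by
        refine IH m rfl c' hc' _ (ordS_mono ?_ (ha i))
        have : (M * Fintype.card V + 2) = B + 1 := by rw [hB]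
        rw [this]
        omega
      rw [h5, h6, zero_sub, neg_eq_zero] at h4
      exact h4

theorem t_f2a : S_f2a := by
  intro V _ g R e S M k hS hM hR hk
  obtain ⟨A, hA⟩ := hS.loc
  have main : ∀ m : ℕ, ∀ c ∈ S, ∀ h, OrdS ((M * Fintype.card V + 2) * (m + 1)) h → c m h = 0 := by
    intro m
    induction m with
    | zero =>
      intro c hc h hh
      exact f2a_step g R e S M k A hS hM hR hk hA 0 (fun m' hm' => by omega) (A * (0 + 1)) _
        le_rfl (by omega) c hc h hh
    | succ m ihm =>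
      intro c hc h hh
      refine f2a_step g R e S M k A hS hM hR hk hA (m + 1) (fun m' hm' => ?_) (A * (m + 1 + 1)) _
        le_rfl (by omega) c hc h hh
      have : m = m' := by omega
      rw [← this]
      exact ihm
  intro c hc m h hh
  exact main m c hc h hh

end Pool.Agent.L0h71.CK
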