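import Pool.Agent.L0h21.CK.Def

set_option autoImplicit false

/-! # Orders of power series and of polynomials: basic lemmas -/

namespace Pool.Agent.L0h71.CK

open Pool.Agent.L0h21.CK

variable {V : Type}

theorem ordS_iff (k : ℕ) (h : MvPowerSeries V ℂ) : OrdS k h ↔ (k : ℕ∞) ≤ h.order := by
  constructor
  · intro H
    exact MvPowerSeries.nat_le_order H
  · intro H d hd
    apply MvPowerSeries.coeff_of_lt_order
    refine lt_of_lt_of_le ?_ H
    exact_mod_cast hd

theorem ordS_zero' (h : MvPowerSeries V ℂ) : OrdS 0 h := by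
  intro d hd
  omega

theorem ordS_mono {k l : ℕ} (hkl : l ≤ k) {h : MvPowerSeries V ℂ} (H : OrdS k h) : OrdS l h :=
  fun d hd => H d (lt_of_lt_of_le hd hkl)

theorem ordS_mul {a b : ℕ} {f g : MvPowerSeries V ℂ} (hf : OrdS a f) (hg : OrdS b g) :
    OrdS (a + b) (f * g) := by
  rw [ordS_iff] at hf hg ⊢
  refine le_trans ?_ MvPowerSeries.le_order_mul
  push_cast
  exact add_le_add hf hg

theorem ordS_mul_left {b : ℕ} (f : MvPowerSeries V ℂ) {g : MvPowerSeries V ℂ} (hg : OrdS b g) :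
    OrdS b (f * g) := by
  have := ordS_mul (ordS_zero' f) hg
  rwa [zero_add] at this

theorem ordS_mul_right {a : ℕ} {f : MvPowerSeries V ℂ} (g : MvPowerSeries V ℂ) (hf : OrdS a f) :
    OrdS a (f * g) := by
  rw [mul_comm]
  exact ordS_mul_left g hf

theorem ordS_pow {a : ℕ} {f : MvPowerSeries V ℂ} (hf : OrdS a f) (j : ℕ) :
    OrdS (a * j) (f ^ j) := by
  induction j with
  | zero => exact ordS_zero' _
  | succ j ih =>
    rw [pow_succ, Nat.mul_succ]
    exact ordS_mul ih hf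

theorem ordS_zero_ser (k : ℕ) : OrdS k (0 : MvPowerSeries V ℂ) := by
  intro d _
  simp

theorem ordS_add {k : ℕ} {f g : MvPowerSeries V ℂ} (hf : OrdS k f) (hg : OrdS k g) :
    OrdS k (f + g) := by
  intro d hd
  rw [map_add, hf d hd, hg d hd, add_zero]

theorem ordS_neg {k : ℕ} {f : MvPowerSeries V ℂ} (hf : OrdS k f) : OrdS k (-f) := by
  intro d hd
  rw [map_neg, hf d hd, neg_zero]

theorem ordS_sub {k : ℕ} {f g : MvPowerSeries V ℂ} (hf : OrdS k f) (hg : OrdS k g) :
    OrdS k (f - g) := by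
  intro d hd
  rw [map_sub, hf d hd, hg d hd, sub_zero]

theorem ordS_smul {k : ℕ} (a : ℂ) {f : MvPowerSeries V ℂ} (hf : OrdS k f) : OrdS k (a • f) := by
  intro d hd
  rw [map_smul, hf d hd, smul_zero]

theorem ordS_sum {ι : Type*} {k : ℕ} (s : Finset ι) (f : ι → MvPowerSeries V ℂ)
    (hf : ∀ i ∈ s, OrdS k (f i)) : OrdS k (∑ i ∈ s, f i) := by
  intro d hd
  rw [map_sum]
  exact Finset.sum_eq_zero fun i hi => hf i hi d hd

theorem ordS_pderiv {k : ℕ} {f : MvPowerSeries V ℂ} (hf : OrdS (k + 1) f) (i : V) :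
    OrdS k (MvPowerSeries.pderiv ℂ i f) := by
  intro d hd
  rw [MvPowerSeries.coeff_pderiv, hf, zero_mul]
  rw [map_add, Finsupp.degree_single]
  omega

theorem ordS_pderiv' {k : ℕ} {f : MvPowerSeries V ℂ} (hf : OrdS k f) (i : V) :
    OrdS (k - 1) (MvPowerSeries.pderiv ℂ i f) := by
  rcases k with - | k
  · exact ordS_zero' _
  · exact ordS_pderiv hf i

theorem ordP_iff (k : ℕ) (q : MvPolynomial V ℂ) : OrdP k q ↔ OrdS k (q : MvPowerSeries V ℂ) := by
  unfold OrdP OrdS
  simp only [MvPolynomial.coeff_coe]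

theorem pderiv_mulS (i : V) (f g : MvPowerSeries V ℂ) :
    MvPowerSeries.pderiv ℂ i (f * g) =
      MvPowerSeries.pderiv ℂ i f * g + f * MvPowerSeries.pderiv ℂ i g := by
  rw [Derivation.leibniz, smul_eq_mul, smul_eq_mul]
  ring

/-- A power series is zero if it has no terms. -/
theorem ordS_empty [IsEmpty V] {h : MvPowerSeries V ℂ} (H : OrdS 1 h) : h = 0 := by
  ext d
  rw [map_zero]
  apply H
  have : d = 0 := Subsingleton.elim _ _
  rw [this]
  simp

end Pool.Agent.L0h71.CK
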