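import Pool.Agent.L0h21.CK.Stm
import Pool.Agent.L0h71.CK.Ord

set_option autoImplicit false

/-! # Module f2b: perturbations -/

namespace Pool.Agent.L0h71.CK

open Pool.Agent.L0h21.CK

variable {V : Type}

/-- The coefficients of the exponential series of `-1`. -/
noncomputable def wt (j : ℕ) : ℂ := (-1) ^ j / (j.factorial : ℂ)

theorem wt_zero : wt 0 = 1 := by
  simp [wt]

theorem wt_succ (j : ℕ) : wt j = -((j : ℂ) + 1) * wt (j + 1) := by
  unfold wt
  have h1 : ((j.factorial : ℕ) : ℂ) ≠ 0 := by exact_mod_cast Nat.factorial_ne_zero j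
  have h2 : ((j : ℂ) + 1) ≠ 0 := by exact_mod_cast Nat.succ_ne_zero j
  rw [Nat.factorial_succ]
  push_cast
  field_simp
  ring

/-- The perturbed family. -/
noncomputable def chat (R : MvPowerSeries V ℂ) (c : ℕ → MvPowerSeries V ℂ →ₗ[ℂ] ℂ) (m : ℕ) :
    MvPowerSeries V ℂ →ₗ[ℂ] ℂ :=
  ∑ j ∈ Finset.range (m + 1), wt j • (c (m + j) ∘ₗ LinearMap.mulLeft ℂ (R ^ j))

theorem chat_apply (R : MvPowerSeries V ℂ) (c : ℕ → MvPowerSeries V ℂ →ₗ[ℂ] ℂ) (m : ℕ)
    (h : MvPowerSeries V ℂ) :
    chat R c m h = ∑ j ∈ Finset.range (m + 1), wt j * c (m + j) (R ^ j * h) := by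
  unfold chat
  rw [LinearMap.sum_apply]
  rfl

theorem chat_zero (R : MvPowerSeries V ℂ) (c : ℕ → MvPowerSeries V ℂ →ₗ[ℂ] ℂ)
    (h : MvPowerSeries V ℂ) : chat R c 0 h = c 0 h := by
  rw [chat_apply]
  simp [wt_zero]

theorem chat_eq {R : MvPowerSeries V ℂ} {A k : ℕ} (hR : OrdS k R) (hk : 2 * A + 1 ≤ k)
    {c : ℕ → MvPowerSeries V ℂ →ₗ[ℂ] ℂ}
    (hc : ∀ (m : ℕ) h, OrdS (A * (m + 1)) h → c m h = 0) (m N : ℕ) (hN : m + 1 ≤ N)
    (h : MvPowerSeries V ℂ) :
    chat R c m h = ∑ j ∈ Finset.range N, wt j * c (m + j) (R ^ j * h) := by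
  rw [chat_apply]
  refine Finset.sum_subset ?_ ?_
  · intro j hj
    rw [Finset.mem_range] at hj ⊢
    omega
  · intro j _ hj
    rw [Finset.mem_range, not_lt] at hj
    rw [hc (m + j), mul_zero]
    refine ordS_mul_right _ (ordS_mono ?_ (ordS_pow hR j))
    calc A * (m + j + 1) ≤ A * (2 * j) := Nat.mul_le_mul_left _ (by omega)
      _ = 2 * A * j := by ring
      _ ≤ k * j := Nat.mul_le_mul_right _ (by omega)

theorem t_f2b : S_f2b := by
  intro V g R e S A k hS hA hA1 hR hk hex
  have hAk : A ≤ k := by omega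
  refine ⟨{c' | ∃ c ∈ S, c' = chat R c}, ?_, ?_⟩
  · refine ⟨?_, ?_, ?_, ?_, ?_, ?_, ?_⟩
    · rintro _ ⟨c, hc, rfl⟩ h
      rw [chat_zero, add_mul, map_add, hS.e1 c hc h, zero_add]
      exact hA c hc 0 _ (ordS_mul_right _ (ordS_mono (by omega) hR))
    · rintro _ ⟨c, hc, rfl⟩ m h
      have hloc := fun m h hh => hA c hc m h hh
      rw [chat_eq hR hk hloc (m + 1) (m + 2) le_rfl, chat_eq hR hk hloc m (m + 2) (by omega)]
      have h1 : ∀ j, wt j * c (m + 1 + j) (R ^ j * ((g + R) * h)) =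
          ((m : ℂ) - e) * (wt j * c (m + j) (R ^ j * h)) +
          ((j : ℂ) * wt j * c (m + j) (R ^ j * h) -
            ((j + 1 : ℕ) : ℂ) * wt (j + 1) * c (m + (j + 1)) (R ^ (j + 1) * h)) := by
        intro j
        have h2 : R ^ j * ((g + R) * h) = g * (R ^ j * h) + R ^ (j + 1) * h := by ring
        have h3 : m + 1 + j = (m + j) + 1 := by omega
        rw [h2, map_add, h3, hS.e2 c hc]
        have h4 := wt_succ j
        have h5 : m + (j + 1) = m + j + 1 := by omega
        rw [h5]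
        push_cast
        linear_combination (c (m + j + 1) (R ^ (j + 1) * h)) * h4
      rw [Finset.sum_congr rfl fun j _ => h1 j, Finset.sum_add_distrib, ← Finset.mul_sum,
        Finset.sum_range_sub' (fun j => (j : ℂ) * wt j * c (m + j) (R ^ j * h))]
      have h6 : c (m + (m + 2)) (R ^ (m + 2) * h) = 0 := by
        refine hloc _ _ (ordS_mul_right _ (ordS_mono ?_ (ordS_pow hR (m + 2))))
        calc A * (m + (m + 2) + 1) ≤ A * (2 * (m + 2)) := Nat.mul_le_mul_left _ (by omega)
          _ = 2 * A * (m + 2) := by ring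
          _ ≤ k * (m + 2) := Nat.mul_le_mul_right _ (by omega)
      rw [h6]
      push_cast
      ring
    · rintro _ ⟨c, hc, rfl⟩ i h
      rw [chat_zero, map_add, add_mul, map_add, hS.d1 c hc i h, zero_add]
      refine hA c hc 0 _ (ordS_mul_right _ (ordS_mono (by omega) (ordS_pderiv' hR i)))
    · rintro _ ⟨c, hc, rfl⟩ i
      obtain ⟨c', hc', hd⟩ := hS.d2 c hc i
      refine ⟨chat R c', ⟨c', hc', rfl⟩, ?_⟩
      intro m h
      have hloc := fun m h hh => hA c hc m h hh
      have hloc' := fun m h hh => hA c' hc' m h hh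
      rw [chat_eq hR hk hloc (m + 1) (m + 2) le_rfl, chat_eq hR hk hloc m (m + 2) (by omega),
        chat_eq hR hk hloc' m (m + 2) (by omega), ← Finset.sum_sub_distrib]
      have hU : ∃ U : ℕ → ℂ, (U 0 = 0 ∧ U (m + 2) = 0) ∧ ∀ j,
          wt j * c (m + j) (R ^ j * MvPowerSeries.pderiv ℂ i h) -
            wt j * c (m + 1 + j) (R ^ j * (MvPowerSeries.pderiv ℂ i (g + R) * h)) =
          wt j * c' (m + j) (R ^ j * h) + (U (j + 1) - U j) := by
        refine ⟨fun j => (j : ℂ) * wt j * c (m + j) (R ^ (j - 1) *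
          (MvPowerSeries.pderiv ℂ i R * h)), ⟨by simp, ?_⟩, ?_⟩
        · have h6 : c (m + (m + 2)) (R ^ (m + 2 - 1) * (MvPowerSeries.pderiv ℂ i R * h)) = 0 := by
            have h7 : OrdS (k * (m + 1) + (k - 1)) (R ^ (m + 2 - 1) *
                (MvPowerSeries.pderiv ℂ i R * h)) :=
              ordS_mul (ordS_pow hR _) (ordS_mul_right _ (ordS_pderiv' hR i))
            refine hloc _ _ (ordS_mono ?_ h7)
            have h8 : (2 * A + 1) * (m + 1) ≤ k * (m + 1) := Nat.mul_le_mul_right _ hk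
            have h9 : A * (m + (m + 2) + 1) = 2 * (A * m) + 3 * A := by ring
            have h10 : (2 * A + 1) * (m + 1) = 2 * (A * m) + 2 * A + m + 1 := by ring
            omega
          simp only []
          rw [h6, mul_zero]
        · intro j
          rw [← hd (m + j) (R ^ j * h)]
          have h2 : MvPowerSeries.pderiv ℂ i (R ^ j * h) =
              (j : ℂ) • (R ^ (j - 1) * (MvPowerSeries.pderiv ℂ i R * h)) +
                R ^ j * MvPowerSeries.pderiv ℂ i h := by
            rw [pderiv_mulS, Derivation.leibniz_pow, smul_eq_mul, ← Nat.cast_smul_eq_nsmul ℂ]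
            rw [smul_mul_assoc, mul_assoc]
          have h3 : R ^ j * (MvPowerSeries.pderiv ℂ i (g + R) * h) =
              MvPowerSeries.pderiv ℂ i g * (R ^ j * h) +
                R ^ j * (MvPowerSeries.pderiv ℂ i R * h) := by
            rw [map_add]
            ring
          have h4 : m + 1 + j = m + j + 1 := by omega
          have h5 : m + (j + 1) = m + j + 1 := by omega
          rw [h2, h3, map_add, map_add, map_smul, smul_eq_mul, h4]
          simp only [h5, Nat.add_sub_cancel]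
          have h6 := wt_succ j
          push_cast
          linear_combination (-(c (m + j + 1) (R ^ j *
            (MvPowerSeries.pderiv ℂ i R * h)))) * h6
      obtain ⟨U, ⟨hU0, hU1⟩, hU2⟩ := hU
      rw [Finset.sum_congr rfl fun j _ => hU2 j, Finset.sum_add_distrib,
        Finset.sum_range_sub U, hU0, hU1, sub_zero, add_zero]
    · rintro _ ⟨c, hc, rfl⟩ a
      obtain ⟨c', hc', hd⟩ := hS.mu c hc a
      refine ⟨chat R c', ⟨c', hc', rfl⟩, ?_⟩
      intro m h
      rw [chat_apply, chat_apply]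
      refine Finset.sum_congr rfl fun j _ => ?_
      rw [← hd, mul_left_comm]
    · rintro _ ⟨c, hc, rfl⟩ _ ⟨c', hc', rfl⟩
      refine ⟨c + c', hS.add c hc c' hc', ?_⟩
      ext m h
      rw [Pi.add_apply, LinearMap.add_apply, chat_apply, chat_apply, chat_apply,
        ← Finset.sum_add_distrib]
      refine Finset.sum_congr rfl fun j _ => ?_
      rw [Pi.add_apply, LinearMap.add_apply, mul_add]
    · refine ⟨A, ?_⟩
      rintro _ ⟨c, hc, rfl⟩ m h hh
      rw [chat_apply]
      refine Finset.sum_eq_zero fun j _ => ?_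
      rw [hA c hc (m + j), mul_zero]
      refine ordS_mono ?_ (ordS_mul (ordS_pow hR j) hh)
      have h1 : A * j ≤ k * j := Nat.mul_le_mul_right _ hAk
      have h2 : A * (m + j + 1) = A * j + A * (m + 1) := by ring
      omega
  · obtain ⟨c, hc, h1⟩ := hex
    refine ⟨chat R c, ⟨c, hc, rfl⟩, ?_⟩
    rw [chat_zero]
    exact h1

end Pool.Agent.L0h71.CK
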